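import Mathlib

/-!
MP_c57c58_al, Q1.  The answer is negative, for every prime `p`, even with `A ∩ B = 1`.

The group is the adjoint group (circle group) of a 23-dimensional nilpotent algebra
`R = R_A ⊕ R_B` over `ZMod p`, where `R_A * R_A = 0` and `R_B` is a Lie nilpotent subalgebra of
class two.  Elements are written in coordinates; `A` consists of the elements all of whose
coordinates outside `a1, …, a10` vanish, `B` of those with `a1 = … = a10 = 0`.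
-/

namespace Pool.Agent.Results.MP_c57c58_al.FactorizedPGroups

open scoped commutatorElement

/-- Coordinates of the 23-dimensional algebra. -/
@[ext] structure Pt (F : Type) where
  y : F
  x : F
  a1 : F
  a2 : F
  s : F
  t : F
  p : F
  a3 : F
  a4 : F
  a5 : F
  a6 : F
  a7 : F
  a8 : F
  q : F
  r : F
  w : F
  f : F
  g : F
  h : F
  a9 : F
  k : F
  a10 : F
  l : F

variable {F : Type} [CommRing F]

/-- The multiplication: the circle operation `u + v + u v` of the algebra. -/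
def Pt.mul (u v : Pt F) : Pt F where
  y := u.y + v.y
  x := u.x + v.x
  a1 := u.a1 + v.a1
  a2 := u.a2 + v.a2
  s := u.s + v.s + u.y * v.x
  t := u.t + v.t + u.x * v.y
  p := u.p + v.p + u.x * v.a2
  a3 := u.a3 + v.a3 + u.a1 * v.y
  a4 := u.a4 + v.a4 + u.x * v.a1
  a5 := u.a5 + v.a5 + u.y * v.a2
  a6 := u.a6 + v.a6 + u.y * v.a4 + u.s * v.a1
  a7 := u.a7 + v.a7 + u.x * v.a3 + u.a4 * v.y
  a8 := u.a8 + v.a8 + u.a1 * v.s + u.a3 * v.x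
  q := u.q + v.q + u.a1 * v.s + u.a3 * v.x
  r := u.r + v.r + u.y * v.p + u.s * v.a2
  w := u.w + v.w + u.x * v.a5 + u.t * v.a2
  f := u.f + v.f + u.y * v.a7 + u.s * v.a3 + u.a6 * v.y
  g := u.g + v.g + u.x * v.q + u.a4 * v.s + u.a7 * v.x
  h := u.h + v.h + u.a8 * v.x - u.q * v.x
  a9 := u.a9 + v.a9 + u.a1 * v.r + u.a3 * v.p + u.q * v.a2
  k := u.k + v.k + u.y * v.g + u.s * v.q + u.a6 * v.s + u.a8 * v.t - u.q * v.t + u.f * v.x + u.h * v.y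
  a10 := u.a10 + v.a10 + u.x * v.a9 + u.a4 * v.r + u.a7 * v.p + u.g * v.a2
  l := u.l + v.l + u.y * v.a10 + u.s * v.a9 + u.a6 * v.r + u.a8 * v.w - u.q * v.w + u.f * v.p + u.h * v.a5 + u.k * v.a2

/-- The inverse. -/
def Pt.inv (u : Pt F) : Pt F :=
  let y' := - u.y
  let x' := - u.x
  let a1' := - u.a1
  let a2' := - u.a2
  let s' := - u.s - u.y * x'
  let t' := - u.t - u.x * y'
  let p' := - u.p - u.x * a2'
  let a3' := - u.a3 - u.a1 * y'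
  let a4' := - u.a4 - u.x * a1'
  let a5' := - u.a5 - u.y * a2'
  let a6' := - u.a6 - u.y * a4' - u.s * a1'
  let a7' := - u.a7 - u.x * a3' - u.a4 * y'
  let a8' := - u.a8 - u.a1 * s' - u.a3 * x'
  let q' := - u.q - u.a1 * s' - u.a3 * x'
  let r' := - u.r - u.y * p' - u.s * a2'
  let w' := - u.w - u.x * a5' - u.t * a2'
  let f' := - u.f - u.y * a7' - u.s * a3' - u.a6 * y'
  let g' := - u.g - u.x * q' - u.a4 * s' - u.a7 * x'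
  let h' := - u.h - u.a8 * x' + u.q * x'
  let a9' := - u.a9 - u.a1 * r' - u.a3 * p' - u.q * a2'
  let k' := - u.k - u.y * g' - u.s * q' - u.a6 * s' - u.a8 * t' + u.q * t' - u.f * x' - u.h * y'
  let a10' := - u.a10 - u.x * a9' - u.a4 * r' - u.a7 * p' - u.g * a2'
  let l' := - u.l - u.y * a10' - u.s * a9' - u.a6 * r' - u.a8 * w' + u.q * w' - u.f * p' - u.h * a5' - u.k * a2'
  ⟨y', x', a1', a2', s', t', p', a3', a4', a5', a6', a7', a8', q', r', w', f', g', h', a9', k', a10', l'⟩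

/-- The neutral element. -/
def Pt.zero : Pt F := ⟨0, 0, 0, 0, 0, 0, 0, 0, 0, 0, 0, 0, 0, 0, 0, 0, 0, 0, 0, 0, 0, 0, 0⟩

theorem Pt.mul_assoc' (u v w : Pt F) : (u.mul v).mul w = u.mul (v.mul w) := by
  ext <;> simp only [Pt.mul] <;> ring

theorem Pt.mul_zero' (u : Pt F) : u.mul Pt.zero = u := by
  ext <;> simp [Pt.mul, Pt.zero]

theorem Pt.mul_inv' (u : Pt F) : u.mul u.inv = Pt.zero := by
  ext <;> simp only [Pt.mul, Pt.inv, Pt.zero] <;> ring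

instance : Mul (Pt F) := ⟨Pt.mul⟩
instance : One (Pt F) := ⟨Pt.zero⟩
instance : Inv (Pt F) := ⟨Pt.inv⟩

instance : Group (Pt F) :=
  Group.ofRightAxioms Pt.mul_assoc' Pt.mul_zero' Pt.mul_inv'

theorem mul_y (u v : Pt F) : (u * v).y = u.y + v.y := rfl
theorem mul_x (u v : Pt F) : (u * v).x = u.x + v.x := rfl
theorem mul_a1 (u v : Pt F) : (u * v).a1 = u.a1 + v.a1 := rfl
theorem mul_a2 (u v : Pt F) : (u * v).a2 = u.a2 + v.a2 := rfl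
theorem mul_s (u v : Pt F) : (u * v).s = u.s + v.s + u.y * v.x := rfl
theorem mul_t (u v : Pt F) : (u * v).t = u.t + v.t + u.x * v.y := rfl
theorem mul_p (u v : Pt F) : (u * v).p = u.p + v.p + u.x * v.a2 := rfl
theorem mul_a3 (u v : Pt F) : (u * v).a3 = u.a3 + v.a3 + u.a1 * v.y := rfl
theorem mul_a4 (u v : Pt F) : (u * v).a4 = u.a4 + v.a4 + u.x * v.a1 := rfl
theorem mul_a5 (u v : Pt F) : (u * v).a5 = u.a5 + v.a5 + u.y * v.a2 := rfl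
theorem mul_a6 (u v : Pt F) : (u * v).a6 = u.a6 + v.a6 + u.y * v.a4 + u.s * v.a1 := rfl
theorem mul_a7 (u v : Pt F) : (u * v).a7 = u.a7 + v.a7 + u.x * v.a3 + u.a4 * v.y := rfl
theorem mul_a8 (u v : Pt F) : (u * v).a8 = u.a8 + v.a8 + u.a1 * v.s + u.a3 * v.x := rfl
theorem mul_q (u v : Pt F) : (u * v).q = u.q + v.q + u.a1 * v.s + u.a3 * v.x := rfl
theorem mul_r (u v : Pt F) : (u * v).r = u.r + v.r + u.y * v.p + u.s * v.a2 := rfl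
theorem mul_w (u v : Pt F) : (u * v).w = u.w + v.w + u.x * v.a5 + u.t * v.a2 := rfl
theorem mul_f (u v : Pt F) : (u * v).f = u.f + v.f + u.y * v.a7 + u.s * v.a3 + u.a6 * v.y := rfl
theorem mul_g (u v : Pt F) : (u * v).g = u.g + v.g + u.x * v.q + u.a4 * v.s + u.a7 * v.x := rfl
theorem mul_h (u v : Pt F) : (u * v).h = u.h + v.h + u.a8 * v.x - u.q * v.x := rfl
theorem mul_a9 (u v : Pt F) : (u * v).a9 = u.a9 + v.a9 + u.a1 * v.r + u.a3 * v.p + u.q * v.a2 := rfl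
theorem mul_k (u v : Pt F) : (u * v).k = u.k + v.k + u.y * v.g + u.s * v.q + u.a6 * v.s + u.a8 * v.t - u.q * v.t + u.f * v.x + u.h * v.y := rfl
theorem mul_a10 (u v : Pt F) : (u * v).a10 = u.a10 + v.a10 + u.x * v.a9 + u.a4 * v.r + u.a7 * v.p + u.g * v.a2 := rfl
theorem mul_l (u v : Pt F) : (u * v).l = u.l + v.l + u.y * v.a10 + u.s * v.a9 + u.a6 * v.r + u.a8 * v.w - u.q * v.w + u.f * v.p + u.h * v.a5 + u.k * v.a2 := rfl

theorem one_y : (1 : Pt F).y = 0 := rfl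
theorem one_x : (1 : Pt F).x = 0 := rfl
theorem one_a1 : (1 : Pt F).a1 = 0 := rfl
theorem one_a2 : (1 : Pt F).a2 = 0 := rfl
theorem one_s : (1 : Pt F).s = 0 := rfl
theorem one_t : (1 : Pt F).t = 0 := rfl
theorem one_p : (1 : Pt F).p = 0 := rfl
theorem one_a3 : (1 : Pt F).a3 = 0 := rfl
theorem one_a4 : (1 : Pt F).a4 = 0 := rfl
theorem one_a5 : (1 : Pt F).a5 = 0 := rfl
theorem one_a6 : (1 : Pt F).a6 = 0 := rfl
theorem one_a7 : (1 : Pt F).a7 = 0 := rfl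
theorem one_a8 : (1 : Pt F).a8 = 0 := rfl
theorem one_q : (1 : Pt F).q = 0 := rfl
theorem one_r : (1 : Pt F).r = 0 := rfl
theorem one_w : (1 : Pt F).w = 0 := rfl
theorem one_f : (1 : Pt F).f = 0 := rfl
theorem one_g : (1 : Pt F).g = 0 := rfl
theorem one_h : (1 : Pt F).h = 0 := rfl
theorem one_a9 : (1 : Pt F).a9 = 0 := rfl
theorem one_k : (1 : Pt F).k = 0 := rfl
theorem one_a10 : (1 : Pt F).a10 = 0 := rfl
theorem one_l : (1 : Pt F).l = 0 := rfl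

/-- The coordinates form a product of 23 copies of `F`. -/
def Pt.equiv (F : Type) : Pt F ≃ (Fin 23 → F) where
  toFun u := ![u.y, u.x, u.a1, u.a2, u.s, u.t, u.p, u.a3, u.a4, u.a5, u.a6, u.a7, u.a8, u.q, u.r, u.w, u.f, u.g, u.h, u.a9, u.k, u.a10, u.l]
  invFun v := ⟨v 0, v 1, v 2, v 3, v 4, v 5, v 6, v 7, v 8, v 9, v 10, v 11, v 12, v 13, v 14, v 15, v 16, v 17, v 18, v 19, v 20, v 21, v 22⟩
  left_inv u := by cases u; rfl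
  right_inv v := by
    funext i
    fin_cases i <;> rfl

theorem isPGroup (p : ℕ) [Fact p.Prime] : IsPGroup p (Pt (ZMod p)) := by
  apply IsPGroup.of_card (n := 23)
  rw [Nat.card_congr (Pt.equiv (ZMod p))]
  simp

instance (p : ℕ) [Fact p.Prime] : Finite (Pt (ZMod p)) :=
  Finite.of_equiv _ (Pt.equiv (ZMod p)).symm


/-- The subgroup `A`: the coordinates y, x, s, t, p, q, r, w, f, g, h, k, l vanish. -/
def sA (F : Type) [CommRing F] : Subgroup (Pt F) where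
  carrier := {u | u.y = 0 ∧ u.x = 0 ∧ u.s = 0 ∧ u.t = 0 ∧ u.p = 0 ∧ u.q = 0 ∧ u.r = 0 ∧ u.w = 0 ∧ u.f = 0 ∧ u.g = 0 ∧ u.h = 0 ∧ u.k = 0 ∧ u.l = 0}
  mul_mem' := by
    rintro u v ⟨h0, h1, h2, h3, h4, h5, h6, h7, h8, h9, h10, h11, h12⟩ ⟨g0, g1, g2, g3, g4, g5, g6, g7, g8, g9, g10, g11, g12⟩
    refine ⟨?_, ?_, ?_, ?_, ?_, ?_, ?_, ?_, ?_, ?_, ?_, ?_, ?_⟩ <;>
      simp only [mul_y, mul_x, mul_s, mul_t, mul_p, mul_q, mul_r, mul_w, mul_f, mul_g, mul_h, mul_k, mul_l, h0, h1, h2, h3, h4, h5, h6, h7, h8, h9, h10, h11, h12, g0, g1, g2, g3, g4, g5, g6, g7, g8, g9, g10, g11, g12] <;> ring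
  one_mem' := ⟨rfl, rfl, rfl, rfl, rfl, rfl, rfl, rfl, rfl, rfl, rfl, rfl, rfl⟩
  inv_mem' := by
    rintro u ⟨h0, h1, h2, h3, h4, h5, h6, h7, h8, h9, h10, h11, h12⟩
    refine ⟨?_, ?_, ?_, ?_, ?_, ?_, ?_, ?_, ?_, ?_, ?_, ?_, ?_⟩
    · show (Pt.inv u).y = 0
      simp only [Pt.inv, h0, h1, h2, h3, h4, h5, h6, h7, h8, h9, h10, h11, h12]; ring
    · show (Pt.inv u).x = 0
      simp only [Pt.inv, h0, h1, h2, h3, h4, h5, h6, h7, h8, h9, h10, h11, h12]; ring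
    · show (Pt.inv u).s = 0
      simp only [Pt.inv, h0, h1, h2, h3, h4, h5, h6, h7, h8, h9, h10, h11, h12]; ring
    · show (Pt.inv u).t = 0
      simp only [Pt.inv, h0, h1, h2, h3, h4, h5, h6, h7, h8, h9, h10, h11, h12]; ring
    · show (Pt.inv u).p = 0
      simp only [Pt.inv, h0, h1, h2, h3, h4, h5, h6, h7, h8, h9, h10, h11, h12]; ring
    · show (Pt.inv u).q = 0
      simp only [Pt.inv, h0, h1, h2, h3, h4, h5, h6, h7, h8, h9, h10, h11, h12]; ring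
    · show (Pt.inv u).r = 0
      simp only [Pt.inv, h0, h1, h2, h3, h4, h5, h6, h7, h8, h9, h10, h11, h12]; ring
    · show (Pt.inv u).w = 0
      simp only [Pt.inv, h0, h1, h2, h3, h4, h5, h6, h7, h8, h9, h10, h11, h12]; ring
    · show (Pt.inv u).f = 0
      simp only [Pt.inv, h0, h1, h2, h3, h4, h5, h6, h7, h8, h9, h10, h11, h12]; ring
    · show (Pt.inv u).g = 0
      simp only [Pt.inv, h0, h1, h2, h3, h4, h5, h6, h7, h8, h9, h10, h11, h12]; ring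
    · show (Pt.inv u).h = 0
      simp only [Pt.inv, h0, h1, h2, h3, h4, h5, h6, h7, h8, h9, h10, h11, h12]; ring
    · show (Pt.inv u).k = 0
      simp only [Pt.inv, h0, h1, h2, h3, h4, h5, h6, h7, h8, h9, h10, h11, h12]; ring
    · show (Pt.inv u).l = 0
      simp only [Pt.inv, h0, h1, h2, h3, h4, h5, h6, h7, h8, h9, h10, h11, h12]; ring

/-- The subgroup `B`: the coordinates a1, a2, a3, a4, a5, a6, a7, a8, a9, a10 vanish. -/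
def sB (F : Type) [CommRing F] : Subgroup (Pt F) where
  carrier := {u | u.a1 = 0 ∧ u.a2 = 0 ∧ u.a3 = 0 ∧ u.a4 = 0 ∧ u.a5 = 0 ∧ u.a6 = 0 ∧ u.a7 = 0 ∧ u.a8 = 0 ∧ u.a9 = 0 ∧ u.a10 = 0}
  mul_mem' := by
    rintro u v ⟨h0, h1, h2, h3, h4, h5, h6, h7, h8, h9⟩ ⟨g0, g1, g2, g3, g4, g5, g6, g7, g8, g9⟩
    refine ⟨?_, ?_, ?_, ?_, ?_, ?_, ?_, ?_, ?_, ?_⟩ <;>
      simp only [mul_a1, mul_a2, mul_a3, mul_a4, mul_a5, mul_a6, mul_a7, mul_a8, mul_a9, mul_a10, h0, h1, h2, h3, h4, h5, h6, h7, h8, h9, g0, g1, g2, g3, g4, g5, g6, g7, g8, g9] <;> ring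
  one_mem' := ⟨rfl, rfl, rfl, rfl, rfl, rfl, rfl, rfl, rfl, rfl⟩
  inv_mem' := by
    rintro u ⟨h0, h1, h2, h3, h4, h5, h6, h7, h8, h9⟩
    refine ⟨?_, ?_, ?_, ?_, ?_, ?_, ?_, ?_, ?_, ?_⟩
    · show (Pt.inv u).a1 = 0
      simp only [Pt.inv, h0, h1, h2, h3, h4, h5, h6, h7, h8, h9]; ring
    · show (Pt.inv u).a2 = 0
      simp only [Pt.inv, h0, h1, h2, h3, h4, h5, h6, h7, h8, h9]; ring
    · show (Pt.inv u).a3 = 0
      simp only [Pt.inv, h0, h1, h2, h3, h4, h5, h6, h7, h8, h9]; ring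
    · show (Pt.inv u).a4 = 0
      simp only [Pt.inv, h0, h1, h2, h3, h4, h5, h6, h7, h8, h9]; ring
    · show (Pt.inv u).a5 = 0
      simp only [Pt.inv, h0, h1, h2, h3, h4, h5, h6, h7, h8, h9]; ring
    · show (Pt.inv u).a6 = 0
      simp only [Pt.inv, h0, h1, h2, h3, h4, h5, h6, h7, h8, h9]; ring
    · show (Pt.inv u).a7 = 0
      simp only [Pt.inv, h0, h1, h2, h3, h4, h5, h6, h7, h8, h9]; ring
    · show (Pt.inv u).a8 = 0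
      simp only [Pt.inv, h0, h1, h2, h3, h4, h5, h6, h7, h8, h9]; ring
    · show (Pt.inv u).a9 = 0
      simp only [Pt.inv, h0, h1, h2, h3, h4, h5, h6, h7, h8, h9]; ring
    · show (Pt.inv u).a10 = 0
      simp only [Pt.inv, h0, h1, h2, h3, h4, h5, h6, h7, h8, h9]; ring

theorem factor (g : Pt F) : ∃ a ∈ sA F, ∃ b ∈ sB F, g = a * b := by
  refine ⟨⟨0, 0, g.a1, g.a2, 0, 0, 0, g.a3 - g.a1 * g.y, g.a4, g.a5, g.a6, g.a7 - g.a4 * g.y, g.a8 - g.a1 * g.s - (g.a3 - g.a1 * g.y) * g.x, 0, 0, 0, 0, 0, 0, g.a9 - g.a1 * g.r - (g.a3 - g.a1 * g.y) * g.p, 0, g.a10 - g.a4 * g.r - (g.a7 - g.a4 * g.y) * g.p, 0⟩, ⟨rfl, rfl, rfl, rfl, rfl, rfl, rfl, rfl, rfl, rfl, rfl, rfl, rfl⟩,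
    ⟨g.y, g.x, 0, 0, g.s, g.t, g.p, 0, 0, 0, 0, 0, 0, g.q - g.a1 * g.s - (g.a3 - g.a1 * g.y) * g.x, g.r, g.w, g.f - g.a6 * g.y, g.g - g.a4 * g.s - (g.a7 - g.a4 * g.y) * g.x, g.h - (g.a8 - g.a1 * g.s - (g.a3 - g.a1 * g.y) * g.x) * g.x, 0, g.k - g.a6 * g.s - (g.a8 - g.a1 * g.s - (g.a3 - g.a1 * g.y) * g.x) * g.t, 0, g.l - g.a6 * g.r - (g.a8 - g.a1 * g.s - (g.a3 - g.a1 * g.y) * g.x) * g.w⟩, ⟨rfl, rfl, rfl, rfl, rfl, rfl, rfl, rfl, rfl, rfl⟩, ?_⟩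
  ext <;> simp only [mul_y, mul_x, mul_a1, mul_a2, mul_s, mul_t, mul_p, mul_a3, mul_a4, mul_a5, mul_a6, mul_a7, mul_a8, mul_q, mul_r, mul_w, mul_f, mul_g, mul_h, mul_a9, mul_k, mul_a10, mul_l] <;> ring

theorem sA_comm {u v : Pt F} (hu : u ∈ sA F) (hv : v ∈ sA F) : u * v = v * u := by
  obtain ⟨h0, h1, h2, h3, h4, h5, h6, h7, h8, h9, h10, h11, h12⟩ := hu
  obtain ⟨g0, g1, g2, g3, g4, g5, g6, g7, g8, g9, g10, g11, g12⟩ := hv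
  ext <;> simp only [mul_y, mul_x, mul_a1, mul_a2, mul_s, mul_t, mul_p, mul_a3, mul_a4, mul_a5, mul_a6, mul_a7, mul_a8, mul_q, mul_r, mul_w, mul_f, mul_g, mul_h, mul_a9, mul_k, mul_a10, mul_l, h0, h1, h2, h3, h4, h5, h6, h7, h8, h9, h10, h11, h12, g0, g1, g2, g3, g4, g5, g6, g7, g8, g9, g10, g11, g12] <;> ring

theorem inf_bot : sA F ⊓ sB F = ⊥ := by
  rw [eq_bot_iff]
  rintro u ⟨⟨h0, h1, h2, h3, h4, h5, h6, h7, h8, h9, h10, h11, h12⟩, ⟨g0, g1, g2, g3, g4, g5, g6, g7, g8, g9⟩⟩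
  rw [Subgroup.mem_bot]
  ext <;> assumption

/-- The commutator of two elements of `B`. -/
def cc (u v : Pt F) : Pt F :=
  ⟨0, 0, 0, 0, (u.y * v.x - v.y * u.x), - (u.y * v.x - v.y * u.x), 0, 0, 0, 0, 0, 0, 0, 0, (u.y * v.p - v.y * u.p), 0, 0, (u.x * v.q - v.x * u.q), (u.x * v.q - v.x * u.q), 0, (u.y * v.g + u.s * v.q - u.q * v.t + u.f * v.x + u.h * v.y) - (v.y * u.g + v.s * u.q - v.q * u.t + v.f * u.x + v.h * u.y) - (u.y * v.x - v.y * u.x) * (u.q + v.q) - (u.x * v.q - v.x * u.q) * (u.y + v.y), 0, (- u.q * v.w + u.f * v.p) - (- v.q * u.w + v.f * u.p)⟩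

theorem cc_eq {u v : Pt F} (hu : u ∈ sB F) (hv : v ∈ sB F) : u * v = cc u v * (v * u) := by
  obtain ⟨h0, h1, h2, h3, h4, h5, h6, h7, h8, h9⟩ := hu
  obtain ⟨g0, g1, g2, g3, g4, g5, g6, g7, g8, g9⟩ := hv
  ext <;> simp only [cc, mul_y, mul_x, mul_a1, mul_a2, mul_s, mul_t, mul_p, mul_a3, mul_a4, mul_a5, mul_a6, mul_a7, mul_a8, mul_q, mul_r, mul_w, mul_f, mul_g, mul_h, mul_a9, mul_k, mul_a10, mul_l, h0, h1, h2, h3, h4, h5, h6, h7, h8, h9, g0, g1, g2, g3, g4, g5, g6, g7, g8, g9] <;> ring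

theorem commutator_eq {u v : Pt F} (hu : u ∈ sB F) (hv : v ∈ sB F) : ⁅u, v⁆ = cc u v := by
  rw [commutatorElement_def, cc_eq hu hv]
  group

theorem cc_central {u v z : Pt F} (hz : z ∈ sB F) : z * cc u v = cc u v * z := by
  obtain ⟨h0, h1, h2, h3, h4, h5, h6, h7, h8, h9⟩ := hz
  ext <;> simp only [cc, mul_y, mul_x, mul_a1, mul_a2, mul_s, mul_t, mul_p, mul_a3, mul_a4, mul_a5, mul_a6, mul_a7, mul_a8, mul_q, mul_r, mul_w, mul_f, mul_g, mul_h, mul_a9, mul_k, mul_a10, mul_l, h0, h1, h2, h3, h4, h5, h6, h7, h8, h9] <;> ring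

theorem class_le_two : ⁅⁅sB F, sB F⁆, sB F⁆ = ⊥ := by
  rw [Subgroup.commutator_eq_bot_iff_le_centralizer, Subgroup.commutator_le]
  intro u hu v hv
  rw [commutator_eq hu hv, Subgroup.mem_centralizer_iff]
  intro z hz
  exact cc_central hz

/-- `1 + Y`, `1 + X`, `1 + u`, `1 + v`. -/
def eY : Pt F := ⟨1, 0, 0, 0, 0, 0, 0, 0, 0, 0, 0, 0, 0, 0, 0, 0, 0, 0, 0, 0, 0, 0, 0⟩
def eX : Pt F := ⟨0, 1, 0, 0, 0, 0, 0, 0, 0, 0, 0, 0, 0, 0, 0, 0, 0, 0, 0, 0, 0, 0, 0⟩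
def eu : Pt F := ⟨0, 0, 0, 1, 0, 0, 0, 0, 0, 0, 0, 0, 0, 0, 0, 0, 0, 0, 0, 0, 0, 0, 0⟩
def ev : Pt F := ⟨0, 0, 1, 0, 0, 0, 0, 0, 0, 0, 0, 0, 0, 0, 0, 0, 0, 0, 0, 0, 0, 0, 0⟩
/-- `1 + z` with `z = Y X - X Y`. -/
def ez : Pt F := ⟨0, 0, 0, 0, 1, -1, 0, 0, 0, 0, 0, 0, 0, 0, 0, 0, 0, 0, 0, 0, 0, 0, 0⟩
/-- `1 + z u`. -/
def k1 : Pt F := ⟨0, 0, 0, 0, 0, 0, 0, 0, 0, 0, 0, 0, 0, 0, 1, -1, 0, 0, 0, 0, 0, 0, 0⟩
/-- `1 - β - ε`. -/
def k2 : Pt F := ⟨0, 0, 0, 0, 0, 0, 0, 0, 0, 0, 0, 0, 0, -1, 0, 0, 0, 0, 0, 0, -1, 0, 0⟩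
/-- The auxiliary element of `A`. -/
def ea : Pt F := ⟨0, 0, 0, 0, 0, 0, 0, 0, 0, 0, 1, 0, -1, 0, 0, 0, 0, 0, 0, 0, 0, 0, 0⟩

theorem ez_eq : ⁅(eY : Pt F), (eX : Pt F)⁆ = (ez : Pt F) := by
  rw [commutatorElement_def]
  have h : (eY : Pt F) * eX = ez * (eX * eY) := by
    ext <;> simp only [eY, eX, ez, mul_y, mul_x, mul_a1, mul_a2, mul_s, mul_t, mul_p, mul_a3, mul_a4, mul_a5, mul_a6, mul_a7, mul_a8, mul_q, mul_r, mul_w, mul_f, mul_g, mul_h, mul_a9, mul_k, mul_a10, mul_l] <;> ring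
  rw [h]; group

theorem k1_eq : (k1 : Pt F) = ez⁻¹ * (eu⁻¹ * ez * eu) := by
  have h : eu * (ez * k1) = ez * (eu : Pt F) := by
    ext <;> simp only [eu, k1, ez, mul_y, mul_x, mul_a1, mul_a2, mul_s, mul_t, mul_p, mul_a3, mul_a4, mul_a5, mul_a6, mul_a7, mul_a8, mul_q, mul_r, mul_w, mul_f, mul_g, mul_h, mul_a9, mul_k, mul_a10, mul_l] <;> ring
  rw [eq_comm, inv_mul_eq_iff_eq_mul, mul_assoc, inv_mul_eq_iff_eq_mul, h]

theorem k2_eq : (k2 : Pt F) = ez⁻¹ * (ea⁻¹ * (ev⁻¹ * ez * ev)) := by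
  have h : ev * (ea * (ez * k2)) = ez * (ev : Pt F) := by
    ext <;> simp only [ev, ea, k2, ez, mul_y, mul_x, mul_a1, mul_a2, mul_s, mul_t, mul_p, mul_a3, mul_a4, mul_a5, mul_a6, mul_a7, mul_a8, mul_q, mul_r, mul_w, mul_f, mul_g, mul_h, mul_a9, mul_k, mul_a10, mul_l] <;> ring
  rw [eq_comm, inv_mul_eq_iff_eq_mul, inv_mul_eq_iff_eq_mul, mul_assoc, inv_mul_eq_iff_eq_mul, h]

theorem eY_mem : (eY : Pt F) ∈ sB F := ⟨rfl, rfl, rfl, rfl, rfl, rfl, rfl, rfl, rfl, rfl⟩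
theorem eX_mem : (eX : Pt F) ∈ sB F := ⟨rfl, rfl, rfl, rfl, rfl, rfl, rfl, rfl, rfl, rfl⟩
theorem k1_mem : (k1 : Pt F) ∈ sB F := ⟨rfl, rfl, rfl, rfl, rfl, rfl, rfl, rfl, rfl, rfl⟩
theorem k2_mem : (k2 : Pt F) ∈ sB F := ⟨rfl, rfl, rfl, rfl, rfl, rfl, rfl, rfl, rfl, rfl⟩
theorem eu_mem : (eu : Pt F) ∈ sA F := ⟨rfl, rfl, rfl, rfl, rfl, rfl, rfl, rfl, rfl, rfl, rfl, rfl, rfl⟩
theorem ev_mem : (ev : Pt F) ∈ sA F := ⟨rfl, rfl, rfl, rfl, rfl, rfl, rfl, rfl, rfl, rfl, rfl, rfl, rfl⟩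
theorem ea_mem : (ea : Pt F) ∈ sA F := ⟨rfl, rfl, rfl, rfl, rfl, rfl, rfl, rfl, rfl, rfl, rfl, rfl, rfl⟩

theorem ez_mem : (ez : Pt F) ∈ ⁅sB F, sB F⁆ := by
  rw [← ez_eq]
  exact Subgroup.commutator_mem_commutator eY_mem eX_mem

theorem k1_memH : (k1 : Pt F) ∈ sA F ⊔ ⁅sB F, sB F⁆ := by
  have h1 : (ez : Pt F) ∈ sA F ⊔ ⁅sB F, sB F⁆ := Subgroup.mem_sup_right ez_mem
  have h2 : (eu : Pt F) ∈ sA F ⊔ ⁅sB F, sB F⁆ := Subgroup.mem_sup_left eu_mem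
  rw [k1_eq]
  exact mul_mem (inv_mem h1) (mul_mem (mul_mem (inv_mem h2) h1) h2)

theorem k2_memH : (k2 : Pt F) ∈ sA F ⊔ ⁅sB F, sB F⁆ := by
  have h1 : (ez : Pt F) ∈ sA F ⊔ ⁅sB F, sB F⁆ := Subgroup.mem_sup_right ez_mem
  have h2 : (ev : Pt F) ∈ sA F ⊔ ⁅sB F, sB F⁆ := Subgroup.mem_sup_left ev_mem
  have h3 : (ea : Pt F) ∈ sA F ⊔ ⁅sB F, sB F⁆ := Subgroup.mem_sup_left ea_mem
  rw [k2_eq]
  exact mul_mem (inv_mem h1) (mul_mem (inv_mem h3) (mul_mem (mul_mem (inv_mem h2) h1) h2))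

theorem k_not_comm [Nontrivial F] : (k1 : Pt F) * k2 ≠ k2 * k1 := by
  intro h
  have h2 := congrArg Pt.l h
  simp only [k1, k2, mul_l] at h2
  simp at h2

theorem ez_ne_one [Nontrivial F] : (ez : Pt F) ≠ 1 := by
  intro h
  have h2 := congrArg Pt.s h
  simp only [ez, one_s] at h2
  exact one_ne_zero h2

theorem main [Nontrivial F] (B₀ : Subgroup (Pt F)) (hB : B₀ ≤ sB F)
    (hab : ∀ x ∈ B₀, ∀ y ∈ B₀, x * y = y * x) :
    {g : Pt F | ∃ a ∈ sA F, ∃ b ∈ B₀, g = a * b} ≠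
      ((sA F ⊔ ⁅sB F, sB F⁆ : Subgroup (Pt F)) : Set (Pt F)) := by
  intro heq
  have key : ∀ k : Pt F, k ∈ sB F → k ∈ sA F ⊔ ⁅sB F, sB F⁆ → k ∈ B₀ := by
    intro k hk hkH
    have h1 : k ∈ {g : Pt F | ∃ a ∈ sA F, ∃ b ∈ B₀, g = a * b} := by
      rw [heq]; exact hkH
    obtain ⟨a, ha, b, hb, hab'⟩ := h1
    have h2 : a = k * b⁻¹ := by rw [hab']; group
    have h3 : a ∈ sB F := by
      rw [h2]; exact mul_mem hk (inv_mem (hB hb))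
    have h4 : a ∈ sA F ⊓ sB F := ⟨ha, h3⟩
    rw [inf_bot, Subgroup.mem_bot] at h4
    rw [hab', h4, one_mul]
    exact hb
  exact k_not_comm (hab _ (key _ k1_mem k1_memH) _ (key _ k2_mem k2_memH))

/-- **Answer to Q1: no**, for every prime `p` and even with `A ∩ B = 1`. -/
theorem result (p : ℕ) [Fact p.Prime] :
    ∃ (P : Type) (_ : Group P) (_ : Finite P) (A B : Subgroup P),
      IsPGroup p P ∧
      (∀ g : P, ∃ a ∈ A, ∃ b ∈ B, g = a * b) ∧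
      (∀ x ∈ A, ∀ y ∈ A, x * y = y * x) ∧
      ⁅⁅B, B⁆, B⁆ = ⊥ ∧ ⁅B, B⁆ ≠ ⊥ ∧
      A ⊓ B = ⊥ ∧
      ∀ B₀ : Subgroup P, B₀ ≤ B → (∀ x ∈ B₀, ∀ y ∈ B₀, x * y = y * x) →
        {g : P | ∃ a ∈ A, ∃ b ∈ B₀, g = a * b} ≠ ((A ⊔ ⁅B, B⁆ : Subgroup P) : Set P) := by
  refine ⟨Pt (ZMod p), inferInstance, inferInstance, sA _, sB _, isPGroup p, factor,
    fun x hx y hy => sA_comm hx hy, class_le_two, ?_, inf_bot, main⟩
  intro h
  have h1 : (ez : Pt (ZMod p)) ∈ ⁅sB (ZMod p), sB (ZMod p)⁆ := ez_mem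
  rw [h, Subgroup.mem_bot] at h1
  exact ez_ne_one h1

end Pool.Agent.Results.MP_c57c58_al.FactorizedPGroups
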